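import Pool.Agent.W275.UB.Stm

set_option autoImplicit false

namespace Pool.Agent.W347.UB.C1

open MvPolynomial Pool.Agent.H936R2 Pool.Agent.H927R2.RD H294UB Pool.Agent.W275.UB

lemma pigeon {n d : ℕ} (κ : Mono n (n * (d - 1) + 1)) : ∃ i, d ≤ (κ.1 i : ℕ) := by
  by_contra h
  push Not at h
  have h1 : ∑ i, (κ.1 i : ℕ) = n * (d - 1) + 1 := κ.2
  have h2 : ∑ i, (κ.1 i : ℕ) ≤ ∑ _i : Fin n, (d - 1) :=
    Finset.sum_le_sum fun i _ => by have := h i; omega
  rw [Finset.sum_const, Finset.card_univ, Fintype.card_fin, smul_eq_mul] at h2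
  omega

/-- the chosen index -/
noncomputable def ii {n d : ℕ} (κ : Mono n (n * (d - 1) + 1)) : Fin n := (pigeon κ).choose

lemma ii_spec {n d : ℕ} (κ : Mono n (n * (d - 1) + 1)) : d ≤ expo κ (ii κ) :=
  (pigeon κ).choose_spec

/-- the rows of the Macaulay matrix, as polynomials -/
noncomputable def PP {R : Type} [CommRing R] {n d : ℕ} (v : Idx n d → R)
    (κ : Mono n (n * (d - 1) + 1)) : MvPolynomial (Fin n) R :=
  monomial (expo κ - Finsupp.single (ii κ) d) 1 * sy v (ii κ)

lemma split {n d : ℕ} (κ : Mono n (n * (d - 1) + 1)) :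
    (expo κ - Finsupp.single (ii κ) d) + Finsupp.single (ii κ) d = expo κ :=
  tsub_add_cancel_of_le (Finsupp.single_le_iff.2 (ii_spec κ))

lemma PP_hom {R : Type} [CommRing R] {n d : ℕ} (v : Idx n d → R)
    (κ : Mono n (n * (d - 1) + 1)) : (PP v κ).IsHomogeneous (n * (d - 1) + 1) := by
  have h2 : (expo κ - Finsupp.single (ii κ) d).degree + d = n * (d - 1) + 1 := by
    have := congrArg Finsupp.degree (split κ)
    rw [map_add, Finsupp.degree_single, degree_expo] at this
    exact this
  have h3 : (monomial (expo κ - Finsupp.single (ii κ) d) (1 : R)).IsHomogeneous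
      (expo κ - Finsupp.single (ii κ) d).degree := isHomogeneous_monomial _ rfl
  have h4 := h3.mul (sys_isHomogeneous (fun i κ => v (i, κ)) (ii κ))
  rw [h2] at h4
  exact h4

lemma map_PP {R R' : Type} [CommRing R] [CommRing R'] (φ : R →+* R') {n d : ℕ} (v : Idx n d → R)
    (κ : Mono n (n * (d - 1) + 1)) : map φ (PP v κ) = PP (fun q => φ (v q)) κ := by
  rw [PP, PP, map_mul, map_monomial, map_one]
  congr 1
  exact map_form _ _

/-- the Macaulay matrix -/
noncomputable def MM {R : Type} [CommRing R] {n d : ℕ} (v : Idx n d → R) :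
    Matrix (Mono n (n * (d - 1) + 1)) (Mono n (n * (d - 1) + 1)) R :=
  fun κ κ' => coeff (expo κ') (PP v κ)

lemma map_MM {R R' : Type} [CommRing R] [CommRing R'] (φ : R →+* R') {n d : ℕ} (v : Idx n d → R) :
    φ.mapMatrix (MM v) = MM (fun q => φ (v q)) := by
  ext κ κ'
  rw [RingHom.mapMatrix_apply, Matrix.map_apply, MM, MM, ← coeff_map, map_PP]

theorem main : S_c1 := by
  classical
  intro n d hd
  refine ⟨(MM (fun q : Idx n d => (X q : MvPolynomial (Idx n d) ℤ))).det, n * (d - 1) + 1, ?_, ?_⟩
  · refine ⟨fun q => if expo q.2 = Finsupp.single q.1 d then 1 else 0, ?_⟩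
    rw [RingHom.map_det, map_MM]
    simp only [eval_X]
    have h1 : MM (fun q : Idx n d => if expo q.2 = Finsupp.single q.1 d then (1 : ℤ) else 0) =
        1 := by
      ext κ κ'
      have h2 : sy (fun q : Idx n d => if expo q.2 = Finsupp.single q.1 d then (1 : ℤ) else 0)
          (ii κ) = monomial (Finsupp.single (ii κ) d) 1 := by
        obtain ⟨κ0, h0⟩ := exists_expo (d := d) (Finsupp.single (ii κ) d)
          (Finsupp.degree_single _ _)
        show form _ = _
        rw [form, Finset.sum_eq_single κ0]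
        · simp only
          rw [if_pos h0, h0]
        · intro κ1 _ hne
          simp only
          rw [if_neg, map_zero]
          intro h
          exact hne (expo_injective (h.trans h0.symm))
        · intro h
          exact absurd (Finset.mem_univ _) h
      rw [MM, PP, h2, monomial_mul, split, one_mul, coeff_monomial, Matrix.one_apply]
      by_cases h : κ = κ'
      · rw [if_pos (by rw [h]), if_pos h]
      · rw [if_neg (fun h' => h (expo_injective h')), if_neg h]
    rw [h1, Matrix.det_one]
  · intro R _ v hu μ hμ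
    have e1 : aeval v (MM (fun q : Idx n d => (X q : MvPolynomial (Idx n d) ℤ))).det =
        (MM v).det := by
      have h1 := RingHom.map_det (aeval v : MvPolynomial (Idx n d) ℤ →ₐ[ℤ] R).toRingHom
        (MM (fun q : Idx n d => (X q : MvPolynomial (Idx n d) ℤ)))
      rw [map_MM] at h1
      have h2 : (fun q : Idx n d => (aeval v : MvPolynomial (Idx n d) ℤ →ₐ[ℤ] R).toRingHom
          (X q)) = v := by
        funext q
        exact aeval_X v q
      rw [h2] at h1
      exact h1
    rw [e1] at hu
    obtain ⟨κ0, hκ0⟩ := exists_expo μ hμ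
    have hN := Matrix.nonsing_inv_mul (MM v) hu
    have e2 : monomial μ (1 : R) = ∑ κ, C ((MM v)⁻¹ κ0 κ) * PP v κ := by
      apply MvPolynomial.ext
      intro ν
      rw [coeff_sum]
      simp only [coeff_C_mul]
      by_cases h : ν.degree = n * (d - 1) + 1
      · obtain ⟨κ1, rfl⟩ := exists_expo ν h
        have h3 := congrFun (congrFun hN κ0) κ1
        rw [Matrix.mul_apply, Matrix.one_apply] at h3
        rw [coeff_monomial, ← hκ0]
        rw [show (∑ κ, (MM v)⁻¹ κ0 κ * coeff (expo κ1) (PP v κ)) =
          ∑ κ, (MM v)⁻¹ κ0 κ * MM v κ κ1 from rfl, h3]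
        by_cases h' : κ0 = κ1
        · rw [if_pos (by rw [h']), if_pos h']
        · rw [if_neg (fun h'' => h' (expo_injective h'')), if_neg h']
      · rw [coeff_monomial, if_neg (fun h' => h (by rw [← h']; exact hμ))]
        symm
        apply Finset.sum_eq_zero
        intro κ _
        by_contra hne
        exact h (degree_of_coeff (PP_hom v κ) (fun h0 => hne (by rw [h0, mul_zero])))
    rw [e2]
    refine Ideal.sum_mem _ fun κ _ => Ideal.mul_mem_left _ _ ?_
    rw [PP]
    exact Ideal.mul_mem_left _ _ (Ideal.subset_span ⟨_, rfl⟩)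

end Pool.Agent.W347.UB.C1
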